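import Mathlib

namespace Pool.Agent.Results.MP_5514a7_co.Stable
open Finset Equiv

/-- The consecutive pattern `p` occurs in the word `w` at position `j`. -/
def Occ {l m n : ℕ} (p : Perm (Fin l)) (w : Fin m → Fin n) (j : ℕ) : Prop :=
  ∃ h : j + l ≤ m, ∀ a b : Fin l, w ⟨j + a, by omega⟩ < w ⟨j + b, by omega⟩ ↔ p a < p b

/-- Words of length `m` with `k i` copies of the letter `i` and exactly `s` occurrences of `p`. -/
noncomputable def cnt {l n : ℕ} (p : Perm (Fin l)) (m : ℕ) (k : Fin n → ℕ) (s : ℕ) : ℕ :=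
  {w : Fin m → Fin n | (∀ i, {x | w x = i}.ncard = k i) ∧ {j | Occ p w j}.ncard = s}.ncard

def Stable {l : ℕ} (p : Perm (Fin l)) : Prop :=
  ∀ (n : ℕ) (k : Fin n → ℕ) (σ : Perm (Fin n)) (s : ℕ),
    cnt p (∑ i, k i) k s = cnt p (∑ i, k (σ i)) (fun i => k (σ i)) s

open Classical in
noncomputable def S {m n : ℕ} (A : Fin m → Fin m → Prop) (k : Fin n → ℕ) : Finset (Fin m → Fin n) :=
  univ.filter fun w => (∀ i, (univ.filter (w · = i)).card = k i) ∧ ∀ x y, A x y → w x < w y

open Classical in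
noncomputable def bk {m n : ℕ} (A : Fin m → Fin m → Prop) (c d : Fin n) (w : Fin m → Fin n)
    (x : Fin m) : Fin n :=
  if (∃ y, A x y ∧ w x = c ∧ w y = d) ∨ ∃ y, A y x ∧ w y = c ∧ w x = d then w x else swap c d (w x)

theorem bk_mem {m n : ℕ} {A : Fin m → Fin m → Prop} (h1 : ∀ x y z, A x y → A x z → y = z)
    (h2 : ∀ x y z, A y x → A z x → y = z) {c d : Fin n} (hcd : c.1 + 1 = d.1) {k : Fin n → ℕ} {w}
    (hw : w ∈ S A k) : bk A c d w ∈ S A (k ∘ swap c d) ∧ bk A c d (bk A c d w) = w := by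
  classical
  simp only [S, mem_filter, mem_univ, true_and] at *
  obtain ⟨hk, hw⟩ := hw
  have hne : c ≠ d := by rintro rfl; omega
  refine ⟨⟨fun i => ?_, fun x y h => ?_⟩, funext fun x => ?_⟩
  · let P := univ.filter fun x => ∃ y, A x y ∧ w x = c ∧ w y = d
    let Q := univ.filter fun x => ∃ y, A y x ∧ w y = c ∧ w x = d
    have e : P.card = Q.card := by
      refine card_bij (fun x hx => (mem_filter.1 hx).2.choose) (fun x hx => ?_)
        (fun x hx y hy e => ?_) fun y hy => ?_
      · have := (mem_filter.1 hx).2.choose_spec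
        exact mem_filter.2 ⟨mem_univ _, x, this⟩
      · exact h2 _ _ _ (mem_filter.1 hx).2.choose_spec.1 (e ▸ (mem_filter.1 hy).2.choose_spec.1)
      · obtain ⟨x, hx⟩ := (mem_filter.1 hy).2
        have hx' : x ∈ P := mem_filter.2 ⟨mem_univ _, y, hx⟩
        exact ⟨x, hx', h1 _ _ _ (mem_filter.1 hx').2.choose_spec.1 hx.1⟩
    have hP : P ⊆ univ.filter (w · = c) := by grind
    have hQ : Q ⊆ univ.filter (w · = d) := by grind
    have := card_le_card hP
    have := card_le_card hQ
    rw [Function.comp, ← hk]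
    by_cases hc : i = c
    · rw [show univ.filter (bk A c d w · = i) = P ∪ (univ.filter (w · = d) \ Q) by
        ext x; simp only [bk, P, Q, swap_apply_def]; grind, card_union_of_disjoint
        (disjoint_left.2 (by grind)), card_sdiff_of_subset hQ, hc, swap_apply_left]
      omega
    by_cases hd : i = d
    · rw [show univ.filter (bk A c d w · = i) = Q ∪ (univ.filter (w · = c) \ P) by
        ext x; simp only [bk, P, Q, swap_apply_def]; grind, card_union_of_disjoint
        (disjoint_left.2 (by grind)), card_sdiff_of_subset hP, hd, swap_apply_right]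
      omega
    · congr 1
      ext x
      simp only [bk, swap_apply_def]
      grind
  · have := hw x y h
    simp only [bk, swap_apply_def]
    grind
  · have : (∃ y, A x y ∧ bk A c d w x = c ∧ bk A c d w y = d) ∨
        (∃ y, A y x ∧ bk A c d w y = c ∧ bk A c d w x = d) ↔
        (∃ y, A x y ∧ w x = c ∧ w y = d) ∨ ∃ y, A y x ∧ w y = c ∧ w x = d := by
      refine or_congr (exists_congr fun y => and_congr_right fun h => ?_)
        (exists_congr fun y => and_congr_right fun h => ?_) <;> have := hw _ _ h <;>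
        simp only [bk, swap_apply_def] <;> grind
    rw [bk]
    simp only [this]
    split_ifs with h <;> simp only [bk, h, if_true, if_false, swap_apply_self]

theorem symS {m n : ℕ} {A : Fin m → Fin m → Prop} (h1 : ∀ x y z, A x y → A x z → y = z)
    (h2 : ∀ x y z, A y x → A z x → y = z) (σ : Perm (Fin n)) :
    ∀ k : Fin n → ℕ, (S A k).card = (S A (k ∘ σ)).card := by
  rcases n with _ | n
  · simp [Subsingleton.elim σ 1]
  have hσ : σ ∈ (⊤ : Submonoid _) := trivial
  rw [← Perm.mclosure_swap_castSucc_succ] at hσ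
  induction hσ using Submonoid.closure_induction with
  | one => simp
  | mul a b _ _ ha hb => exact fun k => (ha k).trans (hb _)
  | mem a ha =>
    obtain ⟨i, rfl⟩ := ha
    intro k
    refine card_nbij' (bk A i.castSucc i.succ) (bk A i.castSucc i.succ)
      (fun w hw => (bk_mem h1 h2 rfl hw).1) (fun w hw => ?_) (fun w hw => (bk_mem h1 h2 rfl hw).2)
      fun w hw => (bk_mem h1 h2 rfl hw).2
    simpa [Function.comp_def] using (bk_mem h1 h2 (c := i.castSucc) (d := i.succ) rfl hw).1

def u {m n : ℕ} (w : Fin m → Fin n) (i : ℕ) : ℕ := if h : i < m then w ⟨i, h⟩ else 0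

theorem occ {m n : ℕ} (w : Fin m → Fin n) (j : ℕ) : Occ (swap (2 : Fin 5) 3) w j ↔ j + 5 ≤ m ∧
    u w j < u w (j + 1) ∧ u w (j + 1) < u w (j + 3) ∧ u w (j + 3) < u w (j + 2) ∧
      u w (j + 2) < u w (j + 4) := by
  rw [← exists_prop]
  refine exists_congr fun h => ?_
  have : ∀ a : Fin 5, u w (j + a) = w ⟨j + a, by omega⟩ := fun a => dif_pos _
  simp only [Fin.lt_def, ← this]
  simp [Fin.forall_fin_succ, swap_apply_def]
  omega

open Classical in
noncomputable def O {m n : ℕ} (w : Fin m → Fin n) : Finset ℕ :=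
  (range m).filter (Occ (swap (2 : Fin 5) 3) w)

open Classical in
noncomputable def T (m : ℕ) {n : ℕ} (k : Fin n → ℕ) : Finset (Fin m → Fin n) :=
  univ.filter fun w => ∀ i, (univ.filter (w · = i)).card = k i

theorem symF (m : ℕ) {n : ℕ} (k : Fin n → ℕ) (σ : Perm (Fin n)) (J : Finset ℕ) :
    ((T m k).filter (J ⊆ O ·)).card = ((T m (k ∘ σ)).filter (J ⊆ O ·)).card := by
  classical
  have hO : ∀ (w : Fin m → Fin n) j, j ∈ O w ↔ _ := fun w j => by
    rw [O, mem_filter, occ, mem_range, and_iff_right_of_imp fun h => by omega]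
  by_cases hJ : ∀ j ∈ J, j + 5 ≤ m ∧ j + 1 ∉ J ∧ j + 2 ∉ J
  · let A : Fin m → Fin m → Prop := fun x y => ∃ j ∈ J,
      (x.1 = j ∧ y.1 = j + 1 ∧ ∀ i ∈ J, j ≠ i + 3) ∨ (x.1 = j + 1 ∧ y.1 = j + 3) ∨
        (x.1 = j + 3 ∧ y.1 = j + 2) ∨ (x.1 = j + 2 ∧ y.1 = j + 4)
    have e : ∀ k : Fin n → ℕ, (T m k).filter (J ⊆ O ·) = S A k := fun k => by
      ext w
      simp only [T, S, mem_filter, mem_univ, true_and, subset_iff, hO]
      refine and_congr_right fun _ => ⟨?_, fun h => ?_⟩
      · rintro h ⟨x, hx⟩ ⟨y, hy⟩ ⟨j, hj, h'⟩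
        have := h hj
        rw [Fin.lt_def, show (w ⟨x, hx⟩).1 = u w x by simp [u, hx],
          show (w ⟨y, hy⟩).1 = u w y by simp [u, hy]]
        grind
      · have h' : ∀ x y (hx : x < m) (hy : y < m), A ⟨x, hx⟩ ⟨y, hy⟩ → u w x < u w y :=
          fun x y hx hy a => by simpa [u, hx, hy] using h _ _ a
        have h3 : ∀ j ∈ J, u w (j + 1) < u w (j + 3) ∧ u w (j + 3) < u w (j + 2) ∧
            u w (j + 2) < u w (j + 4) := fun j hj => by
          have := (hJ j hj).1
          exact ⟨h' _ _ (by omega) (by omega) ⟨j, hj, by simp⟩, h' _ _ (by omega) (by omega)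
            ⟨j, hj, by simp⟩, h' _ _ (by omega) (by omega) ⟨j, hj, by simp⟩⟩
        intro j hj
        have := (hJ j hj).1
        refine ⟨this, ?_, h3 j hj⟩
        by_cases h4 : ∀ i ∈ J, j ≠ i + 3
        · exact h' _ _ (by omega) (by omega) ⟨j, hj, .inl ⟨rfl, rfl, h4⟩⟩
        · push Not at h4
          obtain ⟨i, hi, rfl⟩ := h4
          exact (h3 i hi).2.1.trans (h3 i hi).2.2
    rw [e, e]
    refine symS ?_ ?_ σ k <;> rintro x y z ⟨i, hi, h⟩ ⟨j, hj, h'⟩ <;> refine Fin.ext ?_ <;>
      have := hJ i hi <;> have := hJ j hj <;> grind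
  · have e : ∀ k : Fin n → ℕ, (T m k).filter (J ⊆ O ·) = ∅ := fun k =>
      filter_eq_empty_iff.2 fun w _ h => hJ fun j hj => by
        have h0 := (hO w j).1 (h hj)
        refine ⟨h0.1, fun h1 => ?_, fun h1 => ?_⟩ <;> have := (hO w _).1 (h h1) <;> grind
    rw [e, e]

theorem symG (m : ℕ) {n : ℕ} (k : Fin n → ℕ) (σ : Perm (Fin n)) (d : ℕ) : ∀ J ⊆ range m,
    m - J.card = d → ((T m k).filter (O · = J)).card = ((T m (k ∘ σ)).filter (O · = J)).card := by
  induction d using Nat.strong_induction_on with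
  | _ d ih =>
  classical
  intro J hJ hd
  have e : ∀ k : Fin n → ℕ, ((T m k).filter (J ⊆ O ·)).card = ((T m k).filter (O · = J)).card +
      ∑ I ∈ ((range m).powerset.filter (J ⊆ ·)).erase J, ((T m k).filter (O · = I)).card := by
    intro k
    rw [add_sum_erase _ (fun I => ((T m k).filter (O · = I)).card) (by simpa using hJ),
      card_eq_sum_card_fiberwise (f := O) (t := (range m).powerset.filter (J ⊆ ·)) fun w hw =>
        mem_filter.2 ⟨mem_powerset.2 (filter_subset _ _), (mem_filter.1 hw).2⟩]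
    refine sum_congr rfl fun I hI => ?_
    rw [filter_filter]
    exact congrArg _ (filter_congr fun w _ => ⟨fun h => h.2, fun h => ⟨h ▸ (mem_filter.1 hI).2, h⟩⟩)
  have h := symF m k σ J
  rw [e, e, sum_congr rfl fun I hI => ?_] at h
  · exact Nat.add_right_cancel h
  · simp only [mem_erase, mem_filter, mem_powerset] at hI
    have := card_lt_card (hI.2.2.ssubset_of_ne hI.1.symm)
    have := card_le_card hI.2.1
    rw [card_range] at this
    exact ih _ (by omega) I hI.2.1 rfl

theorem result : ∃ p : Perm (Fin 5), p ≠ 1 ∧ p ≠ Fin.revPerm ∧ Stable p := by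
  classical
  refine ⟨swap 2 3, by decide, by decide, fun n k σ s => ?_⟩
  rw [Equiv.sum_comp σ k]
  generalize ∑ i, k i = m
  have e : ∀ k : Fin n → ℕ, cnt (swap (2 : Fin 5) 3) m k s =
      ∑ J ∈ powersetCard s (range m), ((T m k).filter (O · = J)).card := fun k => by
    have h1 : ∀ w : Fin m → Fin n, {j | Occ (swap (2 : Fin 5) 3) w j} = ↑(O w) := fun w => by
      ext j
      simp only [O, coe_filter, mem_range, Set.mem_setOf_eq]
      exact ⟨fun h => ⟨by have := h.1; omega, h⟩, fun h => h.2⟩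
    have h2 : ∀ (w : Fin m → Fin n) i, {x | w x = i} = ↑(univ.filter (w · = i)) := by simp
    simp only [cnt, h1, h2, Set.ncard_coe_finset]
    rw [show {w | _} = ((T m k).filter fun w => (O w).card = s : Finset _) by ext; simp [T],
      Set.ncard_coe_finset, card_eq_sum_card_fiberwise (f := O) (t := powersetCard s (range m))
        fun w hw => mem_powersetCard.2 ⟨filter_subset _ _, (mem_filter.1 hw).2⟩]
    refine sum_congr rfl fun I hI => ?_
    rw [filter_filter]
    exact congrArg _ (filter_congr fun w _ =>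
      ⟨fun h => h.2, fun h => ⟨h ▸ (mem_powersetCard.1 hI).2, h⟩⟩)
  rw [e, e]
  exact sum_congr rfl fun J hJ => symG m k σ _ J (mem_powersetCard.1 hJ).1 rfl

end Pool.Agent.Results.MP_5514a7_co.Stable
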